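import Pool.Agent.Run7.h994.PR.Stm

/-!
# The weighted first moment of the truncated singular series of the pairs (piece PR-AV2)
-/

set_option autoImplicit false

namespace Run7.h651.PR

open Finset Filter Topology Polynomial Run7.h994.PR
open Pool.Agent.H373R2.T7 (pz Vz mem_pz Vz_pos)
open Pool.Agent.TH204.WR (rho hh flp prod_nonneg' hh_nonneg rho_le)

theorem dvd_iff_t (h : ℤ) (p : ℕ) (hp : p.Prime) (r : ℕ) (hr : r < p) :
    (p : ℤ) ∣ (r : ℤ) + h ↔ r = ((-h) % p).toNat := by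
  have hp0 : (0 : ℤ) < p := by exact_mod_cast hp.pos
  have h2 := Int.emod_nonneg (-h) hp0.ne'
  have h3 := Int.emod_lt_of_pos (-h) hp0
  have h4 : ((((-h) % p).toNat : ℕ) : ℤ) = (-h) % p := Int.toNat_of_nonneg h2
  have h5 : (p : ℤ) ∣ (-h) % p + h := by
    have := Int.emod_add_mul_ediv (-h) p
    refine ⟨-((-h) / p), ?_⟩
    linarith
  constructor
  · intro h7
    have h8 : (p : ℤ) ∣ (r : ℤ) - (-h) % p := by
      have := dvd_sub h7 h5
      have e : (r : ℤ) + h - ((-h) % p + h) = (r : ℤ) - (-h) % p := by ring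
      rwa [e] at this
    have h9 := Int.eq_zero_of_abs_lt_dvd h8 (by rw [abs_lt]; constructor <;> omega)
    omega
  · rintro rfl
    rw [h4]
    exact h5

/-- the polynomial `x (x + h)` -/
noncomputable def G (h : ℕ) : ℤ[X] := X * (X + C (h : ℤ))

theorem eval_G (h : ℕ) (m : ℤ) : (G h).eval m = m * (m + h) := by
  simp [G]

theorem natDegree_G (h : ℕ) : (G h).natDegree ≤ 2 := by
  unfold G
  refine natDegree_mul_le.trans ?_
  have h1 : (X + C (h : ℤ) : ℤ[X]).natDegree ≤ 1 := by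
    refine (natDegree_add_le _ _).trans ?_
    rw [natDegree_X, natDegree_C]
    simp
  rw [natDegree_X]
  omega

theorem rho_G (h p : ℕ) (hp : p.Prime) : rho (G h) 0 p = nu h p := by
  classical
  have hp1 : Prime (p : ℤ) := Nat.prime_iff_prime_int.1 hp
  have hset : (range p).filter (fun a : ℕ => (p : ℤ) ∣ (G h).eval (a : ℤ) + 0) =
      ({0, ((-(h : ℤ)) % p).toNat} : Finset ℕ) := by
    ext r
    rw [mem_filter, mem_range, mem_insert, mem_singleton, add_zero, eval_G]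
    have h0 : (0 : ℤ) < p := by exact_mod_cast hp.pos
    constructor
    · rintro ⟨h1, h2⟩
      rcases hp1.dvd_or_dvd h2 with h3 | h3
      · left
        have h4 : p ∣ r := by exact_mod_cast h3
        exact Nat.eq_zero_of_dvd_of_lt h4 h1
      · right
        exact (dvd_iff_t h p hp r h1).1 h3
    · rintro (rfl | rfl)
      · exact ⟨hp.pos, by simp⟩
      · have h2 := Int.emod_nonneg (-(h : ℤ)) h0.ne'
        have h3 := Int.emod_lt_of_pos (-(h : ℤ)) h0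
        have h5 : ((-(h : ℤ)) % p).toNat < p := by omega
        exact ⟨h5, dvd_mul_of_dvd_right ((dvd_iff_t h p hp _ h5).2 rfl) _⟩
  unfold rho
  rw [hset]
  unfold nu
  have h6 := dvd_iff_t (h : ℤ) p hp 0 hp.pos
  rw [Nat.cast_zero, zero_add] at h6
  split_ifs with hd
  · have h7 : (p : ℤ) ∣ h := by exact_mod_cast hd
    rw [← h6.1 h7]
    simp
  · have h7 : 0 ≠ ((-(h : ℤ)) % p).toNat := by
      intro h8
      exact hd (by exact_mod_cast h6.2 h8)
    rw [card_pair h7]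

theorem Vz_g2 (F : ℤ[X]) (a b : ℤ) (z : ℕ) :
    Vz z ^ 2 * g2 F a b z = ∏ p ∈ pz z, (1 - (rho (Q F a b) 0 p : ℝ) / p) := by
  unfold g2 r2
  rw [mul_div_cancel₀]
  exact pow_ne_zero _ (Vz_pos z).ne'

theorem Vz_tw (h w : ℕ) : Vz w ^ 2 * tw h w = ∏ p ∈ pz w, (1 - (nu h p : ℝ) / p) := by
  unfold tw
  rw [prod_div_distrib, prod_pow]
  have : (∏ p ∈ pz w, (1 - 1 / (p : ℝ))) = Vz w := rfl
  rw [this, mul_div_cancel₀]
  exact pow_ne_zero _ (Vz_pos w).ne'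

/-- if all residues are zeros then the polynomial is divisible by `p` everywhere -/
theorem all_dvd (P : ℤ[X]) (p : ℕ) (hp : p.Prime) (hr : p ≤ rho P 0 p) (n : ℤ) :
    (p : ℤ) ∣ P.eval n := by
  have h1 : ((range p).filter (fun b : ℕ => (p : ℤ) ∣ P.eval (b : ℤ) + 0)) = range p := by
    refine eq_of_subset_of_card_le (filter_subset _ _) ?_
    rw [card_range]
    exact hr
  have hp0 : (0 : ℤ) < p := by exact_mod_cast hp.pos
  have h2 : (n % p).toNat ∈ range p := by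
    rw [mem_range]
    have := Int.emod_lt_of_pos n hp0
    have := Int.emod_nonneg n hp0.ne'
    omega
  rw [← h1, mem_filter] at h2
  have h3 := h2.2
  rw [Int.toNat_of_nonneg (Int.emod_nonneg n hp0.ne'), add_zero] at h3
  have h4 : (p : ℤ) ∣ P.eval n - P.eval (n % p) := by
    refine dvd_trans ?_ (sub_dvd_eval_sub n (n % p) P)
    exact Int.dvd_self_sub_emod
  have h5 := dvd_add h4 h3
  have e : P.eval n - P.eval (n % p) + P.eval (n % p) = P.eval n := by ring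
  rwa [e] at h5

theorem natDegree_Q (F : ℤ[X]) (a b : ℤ) : (Q F a b).natDegree ≤ 2 * F.natDegree := by
  unfold Q
  refine natDegree_mul_le.trans ?_
  have h1 : ∀ c : ℤ, (F + C c).natDegree ≤ F.natDegree := by
    intro c
    refine (natDegree_add_le _ _).trans ?_
    rw [natDegree_C]
    simp
  have := h1 a
  have := h1 b
  omega

theorem av2 (F : ℤ[X]) (hd : 1 ≤ F.natDegree) (hTW : S_TW) : S_AV2 F := by
  classical
  intro E η0 hη0
  obtain ⟨η, hη, hη1, hηη⟩ : ∃ η : ℝ, 0 < η ∧ η ≤ 1 ∧ η ≤ η0 :=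
    ⟨min η0 1, lt_min hη0 one_pos, min_le_right _ _, min_le_left _ _⟩
  obtain ⟨C1, y1, hC1, hy1, H1⟩ := flp (2 * F.natDegree) (by omega)
  obtain ⟨C2, y2, hC2, hy2, H2⟩ := flp 2 (by norm_num)
  -- the relative error
  obtain ⟨b0, hb0⟩ := exists_pow_lt_of_lt_one (show 0 < η / 20 by positivity)
    (show (1 / 2 : ℝ) < 1 by norm_num)
  obtain ⟨b, hb⟩ : ∃ b : ℕ, b = C1 + C2 + b0 := ⟨_, rfl⟩
  have hbε : 2 * (1 / 2 : ℝ) ^ b ≤ η / 10 := by
    have : (1 / 2 : ℝ) ^ b ≤ (1 / 2 : ℝ) ^ b0 :=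
      pow_le_pow_of_le_one (by norm_num) (by norm_num) (by omega)
    linarith
  obtain ⟨M, hM⟩ : ∃ M : ℕ, M = C1 * b + C2 * b := ⟨_, rfl⟩
  obtain ⟨A₁, hA₁⟩ := eventually_atTop.1
    ((Pool.Agent.TH204.WR.evt_log_pow (E * M) 1 one_pos).and
      ((Pool.Agent.TH204.WR.evt_log_ge ((y1 : ℝ) + y2 + 2))))
  refine ⟨A₁ + 1, fun A hA w hw1 hw2 H => ?_⟩
  obtain ⟨hlp, hlg⟩ := hA₁ A (by omega)
  have hA0 : (0 : ℝ) < A := by exact_mod_cast (by omega : 0 < A)
  have hy1r : (0 : ℝ) ≤ y1 := Nat.cast_nonneg _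
  have hy2r : (0 : ℝ) ≤ y2 := Nat.cast_nonneg _
  have hw12 : (y1 : ℝ) + y2 + 2 ≤ w := hlg.trans hw1
  have hwy1 : y1 ≤ w := by
    have : (y1 : ℝ) ≤ w := by linarith
    exact_mod_cast this
  have hwy2 : y2 ≤ w := by
    have : (y2 : ℝ) ≤ w := by linarith
    exact_mod_cast this
  have hw2' : 2 ≤ w := by omega
  have hwM : (w : ℝ) ^ M ≤ A := by
    calc (w : ℝ) ^ M ≤ (Real.log A ^ E) ^ M := by gcongr
      _ = Real.log A ^ (E * M) := by rw [← pow_mul]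
      _ ≤ A := by
          have h1 := hlp
          simpa using h1
  have hw1' : (1 : ℝ) ≤ w := by linarith
  have hwc1 : w ^ (C1 * b) ≤ A := by
    have : (w : ℝ) ^ (C1 * b) ≤ A :=
      (pow_le_pow_right₀ hw1' (by omega)).trans hwM
    exact_mod_cast this
  have hwc2 : w ^ (C2 * b) ≤ A := by
    have : (w : ℝ) ^ (C2 * b) ≤ A :=
      (pow_le_pow_right₀ hw1' (by omega)).trans hwM
    exact_mod_cast this
  obtain ⟨ε, hε⟩ : ∃ ε : ℝ, ε = η / 10 := ⟨_, rfl⟩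
  rw [← hε] at hbε
  have hε0 : 0 < ε := by rw [hε]; positivity
  have hV : 0 < Vz w ^ 2 := pow_pos (Vz_pos w) 2
  have r7 : 0 < 1 - ε := by
    rw [hε]
    linarith
  -- every `h`
  have kh : ∀ h ∈ Ico 1 H, (1 - ε) * ∑ a ∈ Icc 1 A, g2 F (a : ℕ) ((a + h : ℕ) : ℕ) w ≤
      (1 + ε) * (A * tw h w) := by
    intro h _
    -- every `a`
    have k1 : ∀ a ∈ Icc 1 A, (1 - ε) * ((A : ℝ) * (Vz w ^ 2 * g2 F (a : ℕ) ((a + h : ℕ) : ℕ) w)) ≤
        (#((Icc 1 A).filter (fun n : ℕ => ∀ p ∈ pz w, ¬ (p : ℤ) ∣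
          (F.eval (n : ℤ) + (a : ℕ)) * (F.eval (n : ℤ) + (a : ℕ) + (h : ℕ)))) : ℝ) := by
      intro a _
      have hev : ∀ n : ℤ, (Q F (a : ℕ) ((a + h : ℕ) : ℕ)).eval n =
          (F.eval (n : ℤ) + (a : ℕ)) * (F.eval (n : ℤ) + (a : ℕ) + (h : ℕ)) := by
        intro n
        unfold Q
        rw [eval_mul, eval_add, eval_add, eval_C, eval_C]
        push_cast
        ring
      rw [Vz_g2]
      by_cases hrho : ∀ p ∈ pz w, rho (Q F (a : ℕ) ((a + h : ℕ) : ℕ)) 0 p < p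
      · have hfl := H1 (Q F (a : ℕ) ((a + h : ℕ) : ℕ)) 0 (natDegree_Q _ _ _) b (by omega) w hwy1
          hrho A hwc1 0
        simp only [zero_add, add_zero, hev] at hfl
        have h1 := (abs_le.1 hfl).1
        have h2 := prod_nonneg' (Q F (a : ℕ) ((a + h : ℕ) : ℕ)) 0 w
        have h3 := mul_nonneg hA0.le h2
        have h4 := mul_le_mul_of_nonneg_right hbε h3
        linarith
      · push Not at hrho
        obtain ⟨p, hp, hrp⟩ := hrho
        have hp' := mem_pz.1 hp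
        have hp0 : (0 : ℝ) < p := by exact_mod_cast hp'.2.pos
        have h1 : ∏ p ∈ pz w, (1 - (rho (Q F (a : ℕ) ((a + h : ℕ) : ℕ)) 0 p : ℝ) / p) = 0 := by
          refine prod_eq_zero hp ?_
          have : rho (Q F (a : ℕ) ((a + h : ℕ) : ℕ)) 0 p = p := le_antisymm (rho_le _ _ p) hrp
          rw [this, div_self hp0.ne', sub_self]
        rw [h1, mul_zero, mul_zero]
        exact Nat.cast_nonneg _
    -- every `n`
    have k2 : ∀ n ∈ Icc 1 A, (#((Icc 1 A).filter (fun a : ℕ => ∀ p ∈ pz w, ¬ (p : ℤ) ∣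
          (F.eval (n : ℤ) + (a : ℕ)) * (F.eval (n : ℤ) + (a : ℕ) + (h : ℕ)))) : ℝ) ≤
        (1 + ε) * (A * (Vz w ^ 2 * tw h w)) := by
      intro n _
      have hprod : ∏ p ∈ pz w, (1 - (rho (G h) 0 p : ℝ) / p) = Vz w ^ 2 * tw h w := by
        rw [Vz_tw]
        refine prod_congr rfl fun p hp => ?_
        rw [rho_G h p (mem_pz.1 hp).2]
      by_cases hrho : ∀ p ∈ pz w, rho (G h) 0 p < p
      · have h' := H2 (G h) 0 (natDegree_G h) b (by omega) w hwy2 hrho A hwc2 (F.eval (n : ℤ))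
        simp only [eval_G, add_zero] at h'
        rw [hprod] at h'
        have h1 := (abs_le.1 h').2
        have h2 := prod_nonneg' (G h) 0 w
        rw [hprod] at h2
        have h3 := mul_nonneg hA0.le h2
        have h4 := mul_le_mul_of_nonneg_right hbε h3
        linarith
      · push Not at hrho
        obtain ⟨p, hp, hrp⟩ := hrho
        have hp' := mem_pz.1 hp
        have h0 : (Icc 1 A).filter (fun a : ℕ => ∀ p ∈ pz w, ¬ (p : ℤ) ∣
            (F.eval (n : ℤ) + (a : ℕ)) * (F.eval (n : ℤ) + (a : ℕ) + (h : ℕ))) = ∅ := by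
          refine filter_eq_empty_iff.2 fun a _ hcon => ?_
          have h1 := all_dvd (G h) p hp'.2 hrp (F.eval (n : ℤ) + (a : ℕ))
          rw [eval_G] at h1
          exact hcon p hp h1
        rw [h0, card_empty, Nat.cast_zero, ← hprod]
        have h2 := prod_nonneg' (G h) 0 w
        positivity
    -- double counting
    have k3 : ∑ a ∈ Icc 1 A, (#((Icc 1 A).filter (fun n : ℕ => ∀ p ∈ pz w, ¬ (p : ℤ) ∣
          (F.eval (n : ℤ) + (a : ℕ)) * (F.eval (n : ℤ) + (a : ℕ) + (h : ℕ)))) : ℝ) =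
        ∑ n ∈ Icc 1 A, (#((Icc 1 A).filter (fun a : ℕ => ∀ p ∈ pz w, ¬ (p : ℤ) ∣
          (F.eval (n : ℤ) + (a : ℕ)) * (F.eval (n : ℤ) + (a : ℕ) + (h : ℕ)))) : ℝ) := by
      simp only [card_filter, Nat.cast_sum]
      exact sum_comm
    have k4 : (1 - ε) * ((A : ℝ) * (Vz w ^ 2 * ∑ a ∈ Icc 1 A, g2 F (a : ℕ) ((a + h : ℕ) : ℕ) w)) ≤
        A * ((1 + ε) * (A * (Vz w ^ 2 * tw h w))) := by
      have h1 := sum_le_sum k1
      rw [k3] at h1
      have h2 := h1.trans (sum_le_sum k2)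
      rw [sum_const, Nat.card_Icc, nsmul_eq_mul, ← mul_sum, ← mul_sum, ← mul_sum] at h2
      simpa using h2
    have h1 : 0 < (A : ℝ) * Vz w ^ 2 := mul_pos hA0 hV
    refine le_of_mul_le_mul_left ?_ h1
    calc (A : ℝ) * Vz w ^ 2 * ((1 - ε) * ∑ a ∈ Icc 1 A, g2 F (a : ℕ) ((a + h : ℕ) : ℕ) w) =
        (1 - ε) * ((A : ℝ) * (Vz w ^ 2 * ∑ a ∈ Icc 1 A, g2 F (a : ℕ) ((a + h : ℕ) : ℕ) w)) := by
          ring
      _ ≤ A * ((1 + ε) * (A * (Vz w ^ 2 * tw h w))) := k4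
      _ = A * Vz w ^ 2 * ((1 + ε) * (A * tw h w)) := by ring
  -- sum over `h`
  have kH : (1 - ε) * ∑ h ∈ Ico 1 H, ((H : ℝ) - h) *
      ∑ a ∈ Icc 1 A, g2 F (a : ℕ) ((a + h : ℕ) : ℕ) w ≤ (1 + ε) * (A * ((H : ℝ) ^ 2 / 2)) := by
    calc (1 - ε) * ∑ h ∈ Ico 1 H, ((H : ℝ) - h) *
        ∑ a ∈ Icc 1 A, g2 F (a : ℕ) ((a + h : ℕ) : ℕ) w =
        ∑ h ∈ Ico 1 H, ((H : ℝ) - h) * ((1 - ε) *
          ∑ a ∈ Icc 1 A, g2 F (a : ℕ) ((a + h : ℕ) : ℕ) w) := by
          rw [mul_sum]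
          exact sum_congr rfl fun h _ => by ring
      _ ≤ ∑ h ∈ Ico 1 H, ((H : ℝ) - h) * ((1 + ε) * (A * tw h w)) := by
          refine sum_le_sum fun h hh => mul_le_mul_of_nonneg_left (kh h hh) ?_
          have h1 := (mem_Ico.1 hh).2
          have h2 : (h : ℝ) ≤ H := by exact_mod_cast h1.le
          linarith
      _ = (1 + ε) * (A * ∑ h ∈ Ico 1 H, ((H : ℝ) - h) * tw h w) := by
          rw [mul_sum, mul_sum]
          exact sum_congr rfl fun h _ => by ring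
      _ ≤ (1 + ε) * (A * ((H : ℝ) ^ 2 / 2)) := by
          have := hTW H w hw2'
          gcongr
  have r5 : (1 + ε) ≤ (1 - ε) * (1 + η) := by
    have e2 : η * η ≤ 1 * η := by gcongr
    rw [hε]
    nlinarith
  have hAH : 0 ≤ (A : ℝ) * ((H : ℝ) ^ 2 / 2) := by positivity
  refine le_of_mul_le_mul_left ?_ r7
  calc (1 - ε) * ∑ h ∈ Ico 1 H, ((H : ℝ) - h) *
      ∑ a ∈ Icc 1 A, g2 F (a : ℕ) ((a + h : ℕ) : ℕ) w ≤ (1 + ε) * (A * ((H : ℝ) ^ 2 / 2)) := kH
    _ ≤ ((1 - ε) * (1 + η)) * (A * ((H : ℝ) ^ 2 / 2)) := by gcongr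
    _ = (1 - ε) * ((1 + η) * (A * ((H : ℝ) ^ 2 / 2))) := by ring
    _ ≤ (1 - ε) * ((1 + η0) * (A * ((H : ℝ) ^ 2 / 2))) := by gcongr

end Run7.h651.PR
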